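import Pool.Agent.Helper25.FB.Inj

set_option autoImplicit false

/-!
# Swarm FN (MP_6e521b_an): smooth leading form, all dimensions
-/

namespace Pool.Agent.Helper25.FN

open MeasureTheory
open scoped ContDiff
open Pool.Agent.Helper25.FB.Inj (Entire IsAF FBorel ExpType InPerp star InPStarExp)

abbrev Pol (n : ℕ) : Type := MvPolynomial (Fin n) ℂ
abbrev V (n : ℕ) : Type := Fin n → ℂ

/-- Euclidean norm -/
noncomputable def nm {n : ℕ} (z : V n) : ℝ := √(∑ j, ‖z j‖ ^ 2)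

/-- Wirtinger derivative `∂ f / ∂ z_j` -/
noncomputable def wd {n : ℕ} (j : Fin n) (f : V n → ℂ) : V n → ℂ := fun z =>
  (fderiv ℝ f z (Pi.single j 1) - Complex.I * fderiv ℝ f z (Pi.single j Complex.I)) / 2

/-- iterated Wirtinger derivatives along a list -/
noncomputable def dl {n : ℕ} (l : List (Fin n)) (f : V n → ℂ) : V n → ℂ :=
  l.foldr (fun j g => wd j g) f

/-- the exponent `α` as a list of variables -/
noncomputable def wl {n : ℕ} (α : Fin n →₀ ℕ) : List (Fin n) := (Finsupp.toMultiset α).toList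

/-- `P(∂) f` -/
noncomputable def PD {n : ℕ} (P : Pol n) (f : V n → ℂ) : V n → ℂ := fun z =>
  ∑ α ∈ P.support, P.coeff α * dl (wl α) f z

/-- `P(-∂) f` -/
noncomputable def PDm {n : ℕ} (P : Pol n) (f : V n → ℂ) : V n → ℂ := fun z =>
  ∑ α ∈ P.support, P.coeff α * (-1) ^ (wl α).length * dl (wl α) f z

/-- the operator `f ↦ l f + ∑ z_j ∂_j f` -/
noncomputable def Nop {n : ℕ} (l : ℝ) (f : V n → ℂ) : V n → ℂ := fun z =>
  (l : ℂ) * f z + ∑ j, z j * wd j f z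

/-- the transposed operator `f ↦ l f - ∑ ∂_j (z_j f)` -/
noncomputable def Nt {n : ℕ} (l : ℝ) (f : V n → ℂ) : V n → ℂ := fun z =>
  (l : ℂ) * f z - ∑ j, wd j (fun y => y j * f y) z

/-- leading form of `P*` -/
noncomputable def lead {n : ℕ} (P : Pol n) : Pol n :=
  MvPolynomial.homogeneousComponent P.totalDegree (star P)

/-- value of the leading form of `P*` -/
noncomputable def pv {n : ℕ} (P : Pol n) (z : V n) : ℂ := MvPolynomial.eval z (lead P)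

/-- conjugate gradient of the leading form of `P*` -/
noncomputable def cg {n : ℕ} (P : Pol n) (z : V n) : V n := fun j =>
  starRingEnd ℂ (MvPolynomial.eval z (MvPolynomial.pderiv j (lead P)))

/-- the leading form defines a smooth projective hypersurface -/
def Good {n : ℕ} (P : Pol n) : Prop :=
  ∀ a : V n, a ≠ 0 → pv P a = 0 → ∃ i, MvPolynomial.eval a (MvPolynomial.pderiv i (lead P)) ≠ 0

/-- the gradient `2 ∂Φ` -/
noncomputable def gr {n : ℕ} (Φ : V n → ℝ) (z : V n) : V n := fun j =>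
  2 * wd j (fun y => (Φ y : ℂ)) z

/-- the weight `exp (-2 Φ)` -/
noncomputable def wt {n : ℕ} (Φ : V n → ℝ) (z : V n) : ℝ := Real.exp (-2 * Φ z)

/-- the weight as a complex valued function -/
noncomputable def wc {n : ℕ} (Φ : V n → ℝ) (z : V n) : ℂ := (wt Φ z : ℂ)

/-- properties of the weight -/
structure Wt {n : ℕ} (P : Pol n) (A η : ℝ) (Φ : V n → ℝ) : Prop where
  smooth : ContDiff ℝ ∞ Φ
  hom : ∀ (z : V n) (t : ℝ), 1 ≤ nm z → 1 ≤ t → Φ (t • z) = t * Φ z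
  low : ∀ z : V n, 1 ≤ nm z → A * nm z ≤ Φ z
  pos : ∃ c : ℝ, 0 < c ∧ ∀ z : V n, nm z = 1 →
    c * ‖pv P z‖ ^ 2 ≤ (pv P z * MvPolynomial.eval (gr Φ z) P).re
  bdd : ∃ C : ℝ, ∀ z : V n, nm z = 1 → ‖MvPolynomial.eval (gr Φ z) P‖ ≤ C * ‖pv P z‖
  ang : ∀ z : V n, nm z = 1 → |(∑ j, z j * gr Φ z j).im| ≤ η * Φ z

/-! ### construction of the weight -/

/-- IFTG: implicit function theorem near a compact set (local solutions from Mathlib's implicit or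
inverse function theorem; local uniqueness and continuity of `s₀` glue them) -/
def S_IFTG : Prop :=
  ∀ (E : Type) [NormedAddCommGroup E] [NormedSpace ℝ E] [FiniteDimensional ℝ E] (G : E × ℂ → ℂ)
    (K : Set E) (s₀ : E → ℂ), ContDiff ℝ ∞ G → IsCompact K → ContinuousOn s₀ K →
    (∀ x ∈ K, G (x, s₀ x) = 0) →
    (∀ x ∈ K, ∃ b : ℂ, b ≠ 0 ∧
      HasFDerivAt (fun s : ℂ => G (x, s)) (b • (ContinuousLinearMap.id ℝ ℂ)) (s₀ x)) →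
    ∃ (U : Set E) (s : E → ℂ), IsOpen U ∧ K ⊆ U ∧ ContDiffOn ℝ ∞ s U ∧
      (∀ x ∈ K, s x = s₀ x) ∧ ∀ x ∈ U, G (x, s x) = 0

/-- ROOT (from IFTG): the implicit function. For `h = 1 / B` put
`G(z,h,s) = [p(z + h s cg) - p(z)] / h + P*_{d-1}(z + h s cg) + h P*_{d-2}(..) + ...`
(a polynomial in `z, conj z, h, s`), `p = pv P`, `P* (B z + s cg z) - B ^ d p(z) = B ^ (d-1) G`.
`G(z,0,s) = s |cg z|^2 + P*_{d-1}(z)`. On a neighbourhood of `{nm z = 1, p z = 0}` one has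
`|cg z|^2 >= c > 0`; unique root in a disc by contraction for small `h`, smooth by the implicit
function theorem, jointly in `(z,h)`; multiply by a cutoff in `z`; derivatives bounded by
compactness. -/
def S_ROOT : Prop :=
  ∀ (n : ℕ) (P : Pol n), 1 ≤ P.totalDegree → Good P →
    ∃ (ε K B₀ : ℝ), 0 < ε ∧ 0 < K ∧ 1 ≤ B₀ ∧ ∀ B : ℝ, B₀ ≤ B →
      ∃ s : V n → ℂ, ContDiff ℝ ∞ s ∧ (∀ z, ‖s z‖ ≤ K) ∧ (∀ z, ‖fderiv ℝ s z‖ ≤ K) ∧
        ∀ z : V n, nm z = 1 → ‖pv P z‖ ≤ ε →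
          MvPolynomial.eval ((B : ℂ) • z + s z • cg P z) (star P) =
            (B : ℂ) ^ P.totalDegree * pv P z

/-- the homogeneous function `B |z| + Re (a(z) p(z))`, `a(z) = |z|^(1-d) conj (s (z/|z|))` -/
noncomputable def Phom {n : ℕ} (P : Pol n) (B : ℝ) (s : V n → ℂ) (z : V n) : ℝ :=
  B * nm z + (nm z * (starRingEnd ℂ (s ((nm z)⁻¹ • z)) * pv P ((nm z)⁻¹ • z))).re

/-- WT1: `Phom` is smooth off the origin, homogeneous, and its gradient on the unit sphere is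
`conj (B z + s cg) + O(K' |p|)`, where `K'` depends only on `P` and `K`. -/
def S_WT1 : Prop :=
  ∀ (n : ℕ) (P : Pol n) (K : ℝ), 0 < K → ∃ K' : ℝ, 0 < K' ∧ ∀ (B : ℝ) (s : V n → ℂ),
    ContDiff ℝ ∞ s → (∀ z, ‖s z‖ ≤ K) → (∀ z, ‖fderiv ℝ s z‖ ≤ K) →
      ContDiffOn ℝ ∞ (Phom P B s) {z | z ≠ 0} ∧
      (∀ (z : V n) (t : ℝ), 0 < t → Phom P B s (t • z) = t * Phom P B s z) ∧
      (∀ z : V n, nm z = 1 → |Phom P B s z - B| ≤ K' ∧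
        |(∑ j, z j * gr (Phom P B s) z j).im| ≤ K' ∧
        ∀ j, ‖starRingEnd ℂ (gr (Phom P B s) z j) - ((B : ℂ) * z j + s z * cg P z j)‖ ≤
          K' * ‖pv P z‖)

/-- WT2: from ROOT and WT1: for large `B` the function `Phom` satisfies the estimates of `Wt` on the
unit sphere. `P*(κ) - B^d p` is `0 + O(B^(d-1) |p|)` where `|p| ≤ ε`, and `O(B^(d-1))` elsewhere;
`eval (gr Φ z) P = conj (P* (conj (gr Φ z)))`. -/
def S_WT2 : Prop :=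
  ∀ (n : ℕ) (P : Pol n), 1 ≤ P.totalDegree → Good P → ∀ (A η : ℝ), 0 < A → 0 < η →
    ∃ Φ : V n → ℝ, ContDiffOn ℝ ∞ Φ {z | z ≠ 0} ∧
      (∀ (z : V n) (t : ℝ), 0 < t → Φ (t • z) = t * Φ z) ∧
      (∀ z : V n, nm z = 1 → A ≤ Φ z) ∧
      (∃ c : ℝ, 0 < c ∧ ∀ z : V n, nm z = 1 →
        c * ‖pv P z‖ ^ 2 ≤ (pv P z * MvPolynomial.eval (gr Φ z) P).re) ∧
      (∃ C : ℝ, ∀ z : V n, nm z = 1 → ‖MvPolynomial.eval (gr Φ z) P‖ ≤ C * ‖pv P z‖) ∧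
      (∀ z : V n, nm z = 1 → |(∑ j, z j * gr Φ z j).im| ≤ η * Φ z)

/-- WT3: cutoff at the origin (a smooth function that is `0` for `nm z ≤ 1/4` and `1` for
`nm z ≥ 1/2`) turns the function of `S_WT2` into a weight. -/
def S_WT3 : Prop :=
  ∀ (n : ℕ) (P : Pol n) (A η : ℝ) (Φ : V n → ℝ), ContDiffOn ℝ ∞ Φ {z | z ≠ 0} →
      (∀ (z : V n) (t : ℝ), 0 < t → Φ (t • z) = t * Φ z) →
      (∀ z : V n, nm z = 1 → A ≤ Φ z) →
      (∃ c : ℝ, 0 < c ∧ ∀ z : V n, nm z = 1 →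
        c * ‖pv P z‖ ^ 2 ≤ (pv P z * MvPolynomial.eval (gr Φ z) P).re) →
      (∃ C : ℝ, ∀ z : V n, nm z = 1 → ‖MvPolynomial.eval (gr Φ z) P‖ ≤ C * ‖pv P z‖) →
      (∀ z : V n, nm z = 1 → |(∑ j, z j * gr Φ z j).im| ≤ η * Φ z) →
    ∃ Ψ : V n → ℝ, Wt P A η Ψ

/-! ### symbols -/

/-- symbols of order `k`: smooth, and the `i`-th derivative is `O((1+|z|)^(k-i))` -/
def Sym {n : ℕ} (k : ℤ) (b : V n → ℂ) : Prop :=
  ContDiff ℝ ∞ b ∧ ∀ i : ℕ, ∃ C : ℝ, ∀ z, ‖iteratedFDeriv ℝ i b z‖ ≤ C * (1 + nm z) ^ (k - i)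

/-- SYM1: closure properties -/
def S_SYM1 : Prop :=
  ∀ n : ℕ, (∀ (k l : ℤ) (a b : V n → ℂ), Sym k a → Sym l b → Sym (k + l) (fun z => a z * b z)) ∧
    (∀ (k : ℤ) (a b : V n → ℂ), Sym k a → Sym k b → Sym k (fun z => a z + b z)) ∧
    (∀ (k l : ℤ) (a : V n → ℂ), k ≤ l → Sym k a → Sym l a) ∧
    (∀ c : ℂ, Sym 0 (fun _ : V n => c)) ∧
    (∀ j : Fin n, Sym 1 (fun z : V n => z j)) ∧
    (∀ (k : ℤ) (a : V n → ℂ) (j : Fin n), Sym k a → Sym (k - 1) (wd j a))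

/-- SYM2: a smooth function which is homogeneous of degree one outside the unit ball is a symbol of
order one -/
def S_SYM2 : Prop :=
  ∀ (n : ℕ) (Φ : V n → ℝ), ContDiff ℝ ∞ Φ →
    (∀ (z : V n) (t : ℝ), 1 ≤ nm z → 1 ≤ t → Φ (t • z) = t * Φ z) → Sym 1 (fun z => (Φ z : ℂ))

/-- WD: rules for the Wirtinger derivative (sum, product, constants, exponential of the weight,
smoothness, entire functions) -/
def S_WD : Prop :=
  ∀ (n : ℕ) (j : Fin n),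
    (∀ f g : V n → ℂ, Differentiable ℝ f → Differentiable ℝ g → ∀ z,
      wd j (fun y => f y + g y) z = wd j f z + wd j g z ∧
      wd j (fun y => f y * g y) z = wd j f z * g z + f z * wd j g z) ∧
    (∀ (c : ℂ) (f : V n → ℂ), Differentiable ℝ f → ∀ z, wd j (fun y => c * f y) z = c * wd j f z) ∧
    (∀ f : V n → ℂ, ContDiff ℝ ∞ f → ContDiff ℝ ∞ (wd j f)) ∧
    (∀ Φ : V n → ℝ, ContDiff ℝ ∞ Φ → ContDiff ℝ ∞ (wc Φ) ∧
      ∀ z, wd j (wc Φ) z = -(gr Φ z j) * wc Φ z) ∧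
    (∀ f : V n → ℂ, Entire f → ContDiff ℝ ∞ f ∧ Entire (wd j f) ∧
      (∀ z, wd j f z = fderiv ℂ f z (Pi.single j 1)) ∧
      ∀ z, wd j (fun y => starRingEnd ℂ (f y)) z = 0)

/-- EXPA: `P(-∂) e^(-2Φ) = (P(2∂Φ) + O(1/|z|)) e^(-2Φ)` -/
def S_EXPA : Prop :=
  ∀ (n : ℕ) (P : Pol n) (Φ : V n → ℝ), ContDiff ℝ ∞ Φ → Sym 1 (fun z => (Φ z : ℂ)) →
    ∃ b : V n → ℂ, Sym 0 b ∧ (∀ z, PDm P (wc Φ) z = b z * wc Φ z) ∧
      Sym (-1) (fun z => b z - MvPolynomial.eval (gr Φ z) P)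

/-- NPOS: positivity of the symbol of `Nt^k`. With `g = ∑ z_j (2∂_jΦ)`, `w = l - n + g`,
`E = ∑ z_j ∂_j`: `q_0 = 1`, `q_{i+1} = w q_i - E q_i = w^{i+1} + O((l + |z|)^i)`. For homogeneous `Φ`
`Re g = Φ ≥ A |z|` and `|Im g| ≤ η Φ`; so `arg w^k` is small. -/
def S_NPOS : Prop :=
  ∀ k : ℕ, ∃ η : ℝ, 0 < η ∧ ∀ (n : ℕ) (P : Pol n) (A : ℝ) (Φ : V n → ℝ), 0 < A → Wt P A η Φ →
    ∃ l₀ : ℝ, ∀ l : ℝ, l₀ ≤ l → 0 < l ∧ ∃ q : V n → ℂ, Sym k q ∧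
      (∀ z, ((Nt l)^[k] (wc Φ)) z = q z * wc Φ z) ∧ ∀ z, 0 < (q z).re

/-! ### growth classes -/

/-- `|f| ≤ C (1+|z|)^s e^Φ` -/
def Gr {n : ℕ} (Φ : V n → ℝ) (s : ℤ) (f : V n → ℂ) : Prop :=
  Entire f ∧ ∃ C : ℝ, ∀ z, ‖f z‖ ≤ C * (1 + nm z) ^ s * Real.exp (Φ z)

/-- the density of the form norm: `(|p|^2 (1+|z|)^(-d) + (1+|z|)^(d-2)) e^(-2Φ)` -/
noncomputable def den {n : ℕ} (P : Pol n) (Φ : V n → ℝ) (z : V n) : ℝ :=
  (‖pv P z‖ ^ 2 * (1 + nm z) ^ (-(P.totalDegree : ℤ)) +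
    (1 + nm z) ^ ((P.totalDegree : ℤ) - 2)) * wt Φ z

/-- the Hilbert space -/
def InH {n : ℕ} (P : Pol n) (Φ : V n → ℝ) (f : V n → ℂ) : Prop :=
  Entire f ∧ Integrable (fun z => ‖f z‖ ^ 2 * den P Φ z)

/-- GR1: elements of the Hilbert space have growth `e^Φ` up to powers (sub-mean value property at
unit scale; `Φ` is Lipschitz) -/
def S_GR1 : Prop :=
  ∀ (n : ℕ) (P : Pol n) (Φ : V n → ℝ), ContDiff ℝ ∞ Φ → Sym 1 (fun z => (Φ z : ℂ)) →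
    ∀ f, InH P Φ f → Gr Φ 1 f

/-- GR2: closure of the growth classes -/
def S_GR2 : Prop :=
  ∀ (n : ℕ) (Φ : V n → ℝ), ContDiff ℝ ∞ Φ → Sym 1 (fun z => (Φ z : ℂ)) →
    (∀ (s : ℤ) (f : V n → ℂ) (j : Fin n), Gr Φ s f → Gr Φ s (wd j f)) ∧
    (∀ (s : ℤ) (f g : V n → ℂ), Gr Φ s f → Gr Φ s g → Gr Φ s (fun z => f z + g z)) ∧
    (∀ (s : ℤ) (f : V n → ℂ) (c : ℂ), Gr Φ s f → Gr Φ s (fun z => c * f z)) ∧
    (∀ (s t : ℤ) (f : V n → ℂ), s ≤ t → Gr Φ s f → Gr Φ t f) ∧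
    (∀ (s : ℤ) (f : V n → ℂ) (P : Pol n), Gr Φ s f →
      Gr Φ (s + P.totalDegree) (fun z => MvPolynomial.eval z P * f z)) ∧
    (∀ (s : ℤ) (f : V n → ℂ) (P : Pol n), Gr Φ s f → Gr Φ s (PD P f))

/-- GR3: rapidly decreasing elements belong to the Hilbert space -/
def S_GR3 : Prop :=
  ∀ (n : ℕ) (P : Pol n), ∃ t : ℤ, ∀ (Φ : V n → ℝ) (f : V n → ℂ), Continuous Φ → Gr Φ t f →
    InH P Φ f

/-- IBP: integration by parts -/
def S_IBP : Prop :=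
  ∀ (n : ℕ) (Φ : V n → ℝ), ContDiff ℝ ∞ Φ → Sym 1 (fun z => (Φ z : ℂ)) →
    ∀ (j : Fin n) (k s t : ℤ) (f r q : V n → ℂ), Gr Φ s f → Gr Φ t r → Sym k q →
      s + t + k ≤ -(2 * n + 1 : ℤ) →
      Integrable (fun z => f z * starRingEnd ℂ (r z) * (q z * wc Φ z)) ∧
      ∫ z, wd j f z * starRingEnd ℂ (r z) * (q z * wc Φ z) =
        -∫ z, f z * starRingEnd ℂ (r z) * wd j (fun y => q y * wc Φ y) z

/-- IBPP: the iterated form for `P(∂)` (induction on lists; uses IBP SYM1 WD GR2) -/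
def S_IBPP : Prop :=
  ∀ (n : ℕ) (P : Pol n) (Φ : V n → ℝ), ContDiff ℝ ∞ Φ → Sym 1 (fun z => (Φ z : ℂ)) →
    ∀ (s t : ℤ) (f r : V n → ℂ), Gr Φ s f → Gr Φ t r → s + t ≤ -(2 * n + 1 : ℤ) →
      ∫ z, PD P f z * starRingEnd ℂ (r z) * wc Φ z =
        ∫ z, f z * starRingEnd ℂ (r z) * PDm P (wc Φ) z

/-- IBPN: the same for `Nop l` -/
def S_IBPN : Prop :=
  ∀ (n : ℕ) (Φ : V n → ℝ), ContDiff ℝ ∞ Φ → Sym 1 (fun z => (Φ z : ℂ)) →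
    ∀ (l : ℝ) (i : ℕ) (s t : ℤ) (f r : V n → ℂ), Gr Φ s f → Gr Φ t r →
      s + t + i ≤ -(2 * n + 1 : ℤ) →
      ∫ z, ((Nop l)^[i] f) z * starRingEnd ℂ (r z) * wc Φ z =
        ∫ z, f z * starRingEnd ℂ (r z) * ((Nt l)^[i] (wc Φ)) z

/-- JOP: `Nop l` is inverted by `U(z) = ∫_0^1 t^(l-1) D(t z) dt`, which gains a power of `|z|`
(`e^{Φ(tz)} ≤ C e^{t Φ(z)}` and `Φ ≥ A |z|`) -/
def S_JOP : Prop :=
  ∀ (n : ℕ) (P : Pol n) (A η : ℝ) (Φ : V n → ℝ), 0 < A → Wt P A η Φ →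
    ∀ (l : ℝ), 1 ≤ l → ∀ (s : ℤ), 1 ≤ (s : ℝ) + l → ∀ (D : V n → ℂ), Gr Φ s D →
      ∃ U : V n → ℂ, Gr Φ (s - 1) U ∧ ∀ z, Nop l U z = D z

/-- SEP: separation (from NPOS IBPN JOP) -/
def S_SEP : Prop :=
  ∀ (n : ℕ) (s t : ℤ), ∃ η : ℝ, 0 < η ∧ ∀ (P : Pol n) (A : ℝ) (Φ : V n → ℝ), 0 < A →
    Wt P A η Φ → ∀ D : V n → ℂ, Gr Φ s D →
      (∀ r, Gr Φ t r → ∫ z, D z * starRingEnd ℂ (r z) * wc Φ z = 0) → ∀ z, D z = 0

/-! ### the form -/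

/-- PTW: pointwise estimates of the symbol `P*(z) P(-∂)e^(-2Φ)` (from EXPA, SYM2, Wt). For
`|z| ≥ 1`: `P* = p + O(|z|^(d-1))`, symbol of `P(-∂)` `= σ + O(1/|z|)`, `σ` homogeneous of degree
zero with `Re (p σ) ≥ c |p|^2`, `|σ| ≤ C |p|` on the unit sphere; for `|z| ≤ 1` all is bounded. -/
def S_PTW : Prop :=
  ∀ (n : ℕ) (P : Pol n) (A η : ℝ) (Φ : V n → ℝ), 1 ≤ P.totalDegree → 0 < A → Wt P A η Φ →
    ∃ c C : ℝ, 0 < c ∧ 0 < C ∧ ∀ z : V n,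
      (c * (‖pv P z‖ ^ 2 * (1 + nm z) ^ (-(P.totalDegree : ℤ))) -
        C * (1 + nm z) ^ ((P.totalDegree : ℤ) - 2)) * wt Φ z ≤
          (MvPolynomial.eval z (star P) * PDm P (wc Φ) z).re ∧
      ‖MvPolynomial.eval z (star P) * PDm P (wc Φ) z‖ ≤ C * den P Φ z

/-- DISC: one variable estimate. If `q` is a polynomial-like function with
`|q(ζ) - q(0) - a ζ| ≤ |a| |ζ| / 20` on the disc of radius `2 L`, then for holomorphic `g`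
`∫_{|ζ|<L} |g|^2 ≤ C / (L^2 |a|^2) ∫_{|ζ|<2L} |g|^2 |q|^2` (`|q| ≥ L |a| / 20` off a disc of radius
`L/4`; the mass of `|g|^2` in that disc is at most a constant times the mass in an annulus around
it). -/
def S_DISC : Prop :=
  ∃ C : ℝ, 0 < C ∧ ∀ (L : ℝ) (g q : ℂ → ℂ) (a : ℂ), 0 < L → a ≠ 0 → Differentiable ℂ g →
    Continuous q → (∀ ζ : ℂ, ‖ζ‖ ≤ 2 * L → ‖q ζ - q 0 - a * ζ‖ ≤ ‖a‖ * L / 20) →
    L ^ 2 * ‖a‖ ^ 2 * ∫ ζ in Metric.ball (0 : ℂ) L, ‖g ζ‖ ^ 2 ≤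
      C * ∫ ζ in Metric.ball (0 : ℂ) (2 * L), ‖g ζ‖ ^ 2 * ‖q ζ‖ ^ 2

/-- GAIN: from DISC. For `|z|` large some `|∂_j p(z)| ≥ c |z|^(d-1)` or `|p(z)| ≥ c |z|^d`; apply
DISC on the discs `z + ζ e_j`, `|ζ| < 2L`, to `g(ζ) = f(z + ζ e_j) exp(-2 ζ ∂_jΦ(z))` (there
`e^(-2Φ(z+ζe_j)) = e^(-2Φ(z)) |e^(-2ζ∂_jΦ(z))|^2 (1 + O(L²/|z|))`), and integrate over `z`
(translations preserve the measure). -/
def S_GAIN : Prop :=
  ∀ (n : ℕ) (P : Pol n) (Φ : V n → ℝ), 1 ≤ P.totalDegree → Good P → ContDiff ℝ ∞ Φ →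
    Sym 1 (fun z => (Φ z : ℂ)) → ∀ L : ℝ, 0 < L → ∃ C R : ℝ, ∀ f : V n → ℂ, InH P Φ f →
      L * ∫ z, ‖f z‖ ^ 2 * ((1 + nm z) ^ ((P.totalDegree : ℤ) - 2) * wt Φ z) ≤
        (∫ z, ‖f z‖ ^ 2 * (‖pv P z‖ ^ 2 * (1 + nm z) ^ (-(P.totalDegree : ℤ)) * wt Φ z)) +
          C * ∫ z in {z | nm z ≤ R}, ‖f z‖ ^ 2

/-- FRED: Fredholm alternative (coercive modulo compact, index zero) -/
def S_FRED : Prop :=
  ∀ (H H₂ : Type) [NormedAddCommGroup H] [InnerProductSpace ℂ H] [CompleteSpace H]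
    [NormedAddCommGroup H₂] [InnerProductSpace ℂ H₂] [CompleteSpace H₂]
    (T : H →L[ℂ] H) (K : H →L[ℂ] H₂) (c C : ℝ), 0 < c → IsCompactOperator K →
    (∀ x : H, c * ‖x‖ ^ 2 ≤ (inner ℂ x (T x)).re + C * ‖K x‖ ^ 2) → Function.Injective T →
      Function.Surjective T

/-- BERG: weighted Bergman spaces (closed subspace of `L²(ρ)`; point evaluations bounded; Montel) -/
def S_BERG : Prop :=
  ∀ (n : ℕ) (ρ : V n → ℝ), Continuous ρ → (∀ z, 0 < ρ z) →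
    ∃ (H : Type) (_ : NormedAddCommGroup H) (_ : InnerProductSpace ℂ H) (_ : CompleteSpace H)
      (ι : H →ₗ[ℂ] (V n → ℂ)), Function.Injective ι ∧
      (∀ f : V n → ℂ, (∃ x, ι x = f) ↔ Entire f ∧ Integrable (fun z => ‖f z‖ ^ 2 * ρ z)) ∧
      (∀ x y : H, inner ℂ x y = ∫ z, starRingEnd ℂ (ι x z) * ι y z * (ρ z : ℂ)) ∧
      ∀ R : ℝ, ∃ (H₂ : Type) (_ : NormedAddCommGroup H₂) (_ : InnerProductSpace ℂ H₂)
        (_ : CompleteSpace H₂) (K : H →L[ℂ] H₂), IsCompactOperator K ∧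
          ∀ x : H, ‖K x‖ ^ 2 = ∫ z in {z | nm z ≤ R}, ‖ι x z‖ ^ 2

/-- HIL: existence for the weighted form (from FRED, BERG) -/
def S_HIL : Prop :=
  ∀ (n : ℕ) (ρ : V n → ℝ) (β : V n → ℂ) (c C R : ℝ), Continuous ρ → (∀ z, 0 < ρ z) →
    Continuous β → (∀ z, ‖β z‖ ≤ C * ρ z) → 0 < c →
    (∀ f : V n → ℂ, Entire f → Integrable (fun z => ‖f z‖ ^ 2 * ρ z) →
      c * ∫ z, ‖f z‖ ^ 2 * ρ z ≤ (∫ z, β z * ((‖f z‖ ^ 2 : ℝ) : ℂ)).re +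
        C * ∫ z in {z | nm z ≤ R}, ‖f z‖ ^ 2) →
    (∀ f : V n → ℂ, Entire f → Integrable (fun z => ‖f z‖ ^ 2 * ρ z) →
      (∀ g : V n → ℂ, Entire g → Integrable (fun z => ‖g z‖ ^ 2 * ρ z) →
        ∫ z, f z * starRingEnd ℂ (g z) * β z = 0) → ∀ z, f z = 0) →
    ∀ G : V n → ℂ, Continuous G → Integrable (fun z => ‖G z‖ ^ 2 / ρ z) →
      ∃ f : V n → ℂ, Entire f ∧ Integrable (fun z => ‖f z‖ ^ 2 * ρ z) ∧
        ∀ g : V n → ℂ, Entire g → Integrable (fun z => ‖g z‖ ^ 2 * ρ z) →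
          ∫ z, f z * starRingEnd ℂ (g z) * β z = ∫ z, G z * starRingEnd ℂ (g z)

/-- COER: the coercivity estimate (from PTW, GAIN, SYM2) -/
def S_COER : Prop :=
  ∀ (n : ℕ) (P : Pol n) (A η : ℝ) (Φ : V n → ℝ), 1 ≤ P.totalDegree → Good P → 0 < A →
    Wt P A η Φ → ∃ c C R : ℝ, 0 < c ∧
      (∀ z, ‖MvPolynomial.eval z (star P) * PDm P (wc Φ) z‖ ≤ C * den P Φ z) ∧
      ∀ f : V n → ℂ, InH P Φ f →
        c * ∫ z, ‖f z‖ ^ 2 * den P Φ z ≤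
          (∫ z, (MvPolynomial.eval z (star P) * PDm P (wc Φ) z) * ((‖f z‖ ^ 2 : ℝ) : ℂ)).re +
            C * ∫ z in {z | nm z ≤ R}, ‖f z‖ ^ 2

/-! ### end -/

/-- FBS: every solution of `P(∂) F = 0` of exponential type is the transform of an analytic
functional which annihilates `P · H` (`T f = ∑ α! F_α f_α`) -/
def S_FBS : Prop :=
  ∀ (n : ℕ) (P : Pol n) (F : V n → ℂ), ExpType F → (∀ z, PD P F z = 0) →
    ∃ T : (V n → ℂ) → ℂ, InPerp P T ∧ ∀ z, FBorel T z = F z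

/-- INJ: injectivity on functions of exponential type (from FBS and `Inj.result`) -/
def S_INJ : Prop :=
  ∀ (n : ℕ) (P : Pol n) (Q : V n → ℂ), P ≠ 0 → ExpType Q →
    (∀ z, PD P (fun y => MvPolynomial.eval y (star P) * Q y) z = 0) → ∀ z, Q z = 0

/-- EXT: exponential type is preserved by polynomials and derivatives; relation with `Gr` -/
def S_EXT : Prop :=
  ∀ (n : ℕ), (∀ (f : V n → ℂ) (P : Pol n), ExpType f →
      ExpType (fun z => MvPolynomial.eval z P * f z) ∧ ExpType (PD P f)) ∧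
    (∀ (f g : V n → ℂ), ExpType f → ExpType g → ExpType (fun z => f z - g z)) ∧
    (∀ (P : Pol n) (f g : V n → ℂ), Entire f → Entire g →
      ∀ z, PD P (fun y => f y - g y) z = PD P f z - PD P g z) ∧
    (∀ (Φ : V n → ℝ) (s : ℤ) (f : V n → ℂ), Sym 1 (fun z => (Φ z : ℂ)) → Gr Φ s f → ExpType f) ∧
    (∀ (f : V n → ℂ), ExpType f → ∃ A₀ : ℝ, ∀ (A : ℝ) (Φ : V n → ℝ), A₀ ≤ A → Continuous Φ →
      (∀ z : V n, 1 ≤ nm z → A * nm z ≤ Φ z) → ∀ t : ℤ, Gr Φ t f)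

/-- EX: the operator `Q ↦ P(∂)(P* Q)` is surjective on the functions of exponential type -/
def S_EX : Prop :=
  ∀ (n : ℕ) (P : Pol n), 1 ≤ P.totalDegree → Good P → ∀ G : V n → ℂ, ExpType G →
    ∃ Q : V n → ℂ, ExpType Q ∧
      ∀ z, PD P (fun y => MvPolynomial.eval y (star P) * Q y) z = G z

/-- FIN: the surjectivity of `Φ_P` -/
def S_FIN : Prop :=
  ∀ (n : ℕ) (P : Pol n), 1 ≤ n →
    (∀ a : V n, a ≠ 0 →
      MvPolynomial.eval a (MvPolynomial.homogeneousComponent P.totalDegree P) = 0 →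
      ∃ i, MvPolynomial.eval a
        (MvPolynomial.pderiv i (MvPolynomial.homogeneousComponent P.totalDegree P)) ≠ 0) →
    ∀ G : V n → ℂ, ExpType G →
      ∃ T : (V n → ℂ) → ℂ, InPerp P T ∧ InPStarExp P (fun z => FBorel T z - G z)

end Pool.Agent.Helper25.FN
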