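import Pool.Agent.Helper25.FN.Spec

set_option autoImplicit false

/-! Part EX: existence. -/

namespace Pool.Agent.Helper25.FN.EX

open MeasureTheory
open scoped ContDiff
open Pool.Agent.Helper25.FB.Inj (Entire IsAF FBorel ExpType InPerp star InPStarExp)
open Pool.Agent.Helper25.FN

theorem nm_cont {n : ℕ} : Continuous (nm : V n → ℝ) := by
  unfold nm
  fun_prop

theorem nm_nonneg {n : ℕ} (z : V n) : 0 ≤ nm z := Real.sqrt_nonneg _

theorem eval_cont {n : ℕ} (P : Pol n) : Continuous fun z : V n => MvPolynomial.eval z P :=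
  MvPolynomial.continuous_eval P

theorem pv_cont {n : ℕ} (P : Pol n) : Continuous fun z : V n => pv P z :=
  eval_cont (lead P)

theorem wt_pos {n : ℕ} (Φ : V n → ℝ) (z : V n) : 0 < wt Φ z := Real.exp_pos _

theorem den_cont {n : ℕ} (P : Pol n) {Φ : V n → ℝ} (hΦ : Continuous Φ) :
    Continuous (den P Φ) := by
  unfold den wt
  have h1 : ∀ k : ℤ, Continuous fun z : V n => (1 + nm z) ^ k := fun k =>
    (continuous_const.add nm_cont).zpow₀ k fun z => Or.inl (by have := nm_nonneg z; exact (by linarith : (0:ℝ) < 1 + nm z).ne')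
  have h2 := pv_cont P
  exact ((((h2.norm).pow 2).mul (h1 _)).add (h1 _)).mul (by fun_prop)

theorem den_pos {n : ℕ} (P : Pol n) (Φ : V n → ℝ) (z : V n) : 0 < den P Φ z := by
  unfold den
  have := nm_nonneg z
  have := wt_pos Φ z
  positivity

theorem lemK (hIBP : S_IBP) (hIBPP : S_IBPP) (hGR1 : S_GR1) (hGR2 : S_GR2)
    (hSYM1 : S_SYM1) {n : ℕ} (j : Fin n) (P : Pol n) {A η : ℝ} {Φ : V n → ℝ}
    {t3 t : ℤ} (ht3 : ∀ f : V n → ℂ, Gr Φ t3 f → InH P Φ f)
    (htt : t ≤ t3) (ht : t ≤ -(2 * n + 1 : ℤ) - 1 - (star P).totalDegree)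
    (hsep : ∀ D : V n → ℂ, Gr Φ (1 + (star P).totalDegree) D →
      (∀ r, Gr Φ t r → ∫ z, D z * starRingEnd ℂ (r z) * wc Φ z = 0) → ∀ z, D z = 0)
    (W : Wt P A η Φ) (hS : Sym 1 (fun z => (Φ z : ℂ))) (f G : V n → ℂ) (hf : InH P Φ f)
    (hG : Gr Φ (1 + (star P).totalDegree) G)
    (h : ∀ g : V n → ℂ, InH P Φ g →
      ∫ z, f z * starRingEnd ℂ (g z) * (MvPolynomial.eval z (star P) * PDm P (wc Φ) z) =
        ∫ z, G z * starRingEnd ℂ (g z) * wc Φ z) :
    ∀ z, PD P (fun y => MvPolynomial.eval y (star P) * f y) z = G z := by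
  obtain ⟨g1, g2, g3, g4, g5, g6⟩ := hGR2 n Φ W.smooth hS
  have hf1 : Gr Φ 1 f := hGR1 n P Φ W.smooth hS f hf
  have hPf := g5 1 f (star P) hf1
  have hPD := g6 _ _ P hPf
  have hD := g2 _ _ _ hPD (g3 _ G (-1) hG)
  have hone : Sym 0 (fun _ : V n => (1 : ℂ)) := (hSYM1 n).2.2.2.1 1
  have key := hsep _ hD (fun r hr => by
    have hrH : InH P Φ r := ht3 r (g4 _ _ _ htt hr)
    have hi : ∀ F : V n → ℂ, Gr Φ (1 + (star P).totalDegree) F →
        Integrable fun z => F z * starRingEnd ℂ (r z) * wc Φ z := by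
      intro F hF
      have := (hIBP n Φ W.smooth hS j 0 _ _ F r (fun _ => 1) hF hr hone (by omega)).1
      simpa using this
    have e1 := hIBPP n P Φ W.smooth hS _ _ _ r hPf hr (by omega)
    have e2 : ∫ z, (MvPolynomial.eval z (star P) * f z) * starRingEnd ℂ (r z) *
        PDm P (wc Φ) z = ∫ z, G z * starRingEnd ℂ (r z) * wc Φ z := by
      rw [← h r hrH]
      congr 1
      ext z
      ring
    have e3 : (fun z => (PD P (fun y => MvPolynomial.eval y (star P) * f y) z + -1 * G z) *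
        starRingEnd ℂ (r z) * wc Φ z) = fun z =>
        PD P (fun y => MvPolynomial.eval y (star P) * f y) z * starRingEnd ℂ (r z) * wc Φ z -
          G z * starRingEnd ℂ (r z) * wc Φ z := by
      ext z
      ring
    rw [e3, integral_sub (hi _ hPD) (hi _ hG), e1, e2, sub_self])
  intro z
  have := key z
  linear_combination this

theorem main (hWT2 : S_WT2) (hWT3 : S_WT3) (hSYM1 : S_SYM1) (hSYM2 : S_SYM2)
    (hEXPA : S_EXPA) (hCOER : S_COER) (hHIL : S_HIL) (hIBP : S_IBP) (hIBPP : S_IBPP)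
    (hSEP : S_SEP) (hGR1 : S_GR1) (hGR2 : S_GR2) (hGR3 : S_GR3) (hEXT : S_EXT) (hINJ : S_INJ) :
    S_EX := by
  intro n P hd hP G hG
  have hn : n ≠ 0 := by
    rintro rfl
    have h0 : P.totalDegree = 0 := by
      rw [MvPolynomial.eq_C_of_isEmpty P]
      exact MvPolynomial.totalDegree_C _
    omega
  let j : Fin n := ⟨0, Nat.pos_of_ne_zero hn⟩
  have hP0 : P ≠ 0 := by
    rintro rfl
    simp at hd
  obtain ⟨t3, ht3⟩ := hGR3 n P
  set e : ℤ := ((star P).totalDegree : ℤ) with he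
  set t : ℤ := min t3 (-(2 * n + 1 : ℤ) - 1 - e) with ht
  obtain ⟨η, hη, hsep⟩ := hSEP n (1 + e) t
  obtain ⟨A₀, hA₀⟩ := (hEXT n).2.2.2.2 G hG
  set A : ℝ := max A₀ 1 with hA
  have hApos : 0 < A := lt_of_lt_of_le one_pos (le_max_right _ _)
  obtain ⟨Φ₀, w1, w2, w3, w4, w5, w6⟩ := hWT2 n P hd hP A η hApos hη
  obtain ⟨Φ, W⟩ := hWT3 n P A η Φ₀ w1 w2 w3 w4 w5 w6
  have hS := hSYM2 n Φ W.smooth W.hom
  have hΦc : Continuous Φ := W.smooth.continuous
  have hGr : ∀ s : ℤ, Gr Φ s G := hA₀ A Φ (le_max_left _ _) hΦc W.low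
  obtain ⟨c, C, R, hc, hbd, hcoer⟩ := hCOER n P A η Φ hd hP hApos W
  obtain ⟨b, hb0, hb, -⟩ := hEXPA n P Φ W.smooth hS
  have hwcc : Continuous (wc Φ) := by
    unfold wc wt
    fun_prop
  have hβc : Continuous fun z => MvPolynomial.eval z (star P) * PDm P (wc Φ) z := by
    have h1 : PDm P (wc Φ) = fun z => b z * wc Φ z := funext hb
    rw [h1]
    exact (eval_cont _).mul (hb0.1.continuous.mul hwcc)
  obtain ⟨g1, g2, g3, g4, g5, g6⟩ := hGR2 n Φ W.smooth hS
  have K := fun f G hf hG h => lemK hIBP hIBPP hGR1 hGR2 hSYM1 j P (ht3 Φ · hΦc)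
    (min_le_left _ _) (min_le_right _ _) (hsep P A Φ hApos W) W hS f G hf hG h
  have hinj : ∀ f : V n → ℂ, Entire f → Integrable (fun z => ‖f z‖ ^ 2 * den P Φ z) →
      (∀ g : V n → ℂ, Entire g → Integrable (fun z => ‖g z‖ ^ 2 * den P Φ z) →
        ∫ z, f z * starRingEnd ℂ (g z) *
          (MvPolynomial.eval z (star P) * PDm P (wc Φ) z) = 0) → ∀ z, f z = 0 := by
    intro f hf1 hf2 h
    have h0 : Gr Φ (1 + e) (fun _ : V n => (0 : ℂ)) :=
      ⟨differentiable_const 0, 0, fun z => by simp⟩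
    have h1 := K f (fun _ => 0) ⟨hf1, hf2⟩ h0 (fun g hg => by
      rw [h g hg.1 hg.2]; simp)
    exact hINJ n P f hP0 ((hEXT n).2.2.2.1 Φ 1 f hS (hGR1 n P Φ W.smooth hS f ⟨hf1, hf2⟩)) h1
  -- the functional
  have hone : Sym 0 (fun _ : V n => (1 : ℂ)) := (hSYM1 n).2.2.2.1 1
  have hsq : ∀ F : V n → ℂ, (∀ s : ℤ, Gr Φ s F) → Integrable fun z => ‖F z‖ ^ 2 * wt Φ z := by
    intro F hF
    have h1 := (hIBP n Φ W.smooth hS j 0 (-(2 * n + 1 : ℤ)) 0 F F (fun _ => 1) (hF _) (hF _)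
      hone (by omega)).1
    refine h1.norm.congr (Filter.Eventually.of_forall fun z => ?_)
    simp only [one_mul, norm_mul, RCLike.norm_conj, wc, Complex.norm_real, Real.norm_eq_abs,
      abs_of_pos (wt_pos Φ z)]
    ring
  have hGc : Continuous G := hG.1.continuous
  have hint : Integrable fun z => ‖G z * wc Φ z‖ ^ 2 / den P Φ z := by
    have hXG : ∀ i : Fin n, ∀ s : ℤ, Gr Φ s (fun z => MvPolynomial.eval z
        (MvPolynomial.X i : Pol n) * G z) := by
      intro i s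
      have h1 := g5 (s - 1) G (MvPolynomial.X i) (hGr _)
      rw [MvPolynomial.totalDegree_X] at h1
      simpa using h1
    have hB : Integrable fun z => 2 * (‖G z‖ ^ 2 * wt Φ z) +
        2 * ∑ i, ‖MvPolynomial.eval z (MvPolynomial.X i : Pol n) * G z‖ ^ 2 * wt Φ z :=
      ((hsq G hGr).const_mul 2).add
        ((integrable_finsetSum _ fun i _ => hsq _ (hXG i)).const_mul 2)
    refine hB.mono' ?_ (Filter.Eventually.of_forall fun z => ?_)
    · have h1 : Continuous fun z => ‖G z * wc Φ z‖ ^ 2 / den P Φ z :=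
        (((hGc.mul hwcc).norm).pow 2).div (den_cont P hΦc) fun z => (den_pos P Φ z).ne'
      exact h1.aestronglyMeasurable
    · have hw := wt_pos Φ z
      have hnm := nm_nonneg z
      have hden : (1 + nm z) ^ ((P.totalDegree : ℤ) - 2) * wt Φ z ≤ den P Φ z := by
        unfold den
        have : 0 ≤ ‖pv P z‖ ^ 2 * (1 + nm z) ^ (-(P.totalDegree : ℤ)) := by positivity
        nlinarith
      rw [Real.norm_eq_abs, abs_of_nonneg (div_nonneg (by positivity) (den_pos P Φ z).le),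
        div_le_iff₀ (den_pos P Φ z)]
      have hpow : (1 + nm z) ^ (-1 : ℤ) ≤ (1 + nm z) ^ ((P.totalDegree : ℤ) - 2) :=
        zpow_le_zpow_right₀ (by linarith) (by omega)
      have hnm2 : nm z ^ 2 = ∑ i, ‖z i‖ ^ 2 := by
        unfold nm
        exact Real.sq_sqrt (Finset.sum_nonneg fun i _ => by positivity)
      have hsum : ∑ i, ‖MvPolynomial.eval z (MvPolynomial.X i : Pol n) * G z‖ ^ 2 * wt Φ z =
          nm z ^ 2 * (‖G z‖ ^ 2 * wt Φ z) := by
        rw [hnm2, Finset.sum_mul]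
        refine Finset.sum_congr rfl fun i _ => ?_
        rw [MvPolynomial.eval_X, norm_mul]
        ring
      rw [hsum]
      have hx : 0 ≤ ‖G z‖ ^ 2 * wt Φ z := by positivity
      have h2 : ‖G z * wc Φ z‖ ^ 2 = (‖G z‖ ^ 2 * wt Φ z) * wt Φ z := by
        rw [norm_mul, wc, Complex.norm_real, Real.norm_eq_abs, abs_of_pos hw]
        ring
      rw [h2]
      have h3 : wt Φ z ≤ (1 + nm z) * den P Φ z := by
        have h4 : (1 + nm z) * (1 + nm z) ^ (-1 : ℤ) = 1 := by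
          rw [zpow_neg_one]
          exact mul_inv_cancel₀ (by positivity)
        calc wt Φ z = ((1 + nm z) * (1 + nm z) ^ (-1 : ℤ)) * wt Φ z := by rw [h4, one_mul]
          _ = (1 + nm z) * ((1 + nm z) ^ (-1 : ℤ) * wt Φ z) := by ring
          _ ≤ (1 + nm z) * ((1 + nm z) ^ ((P.totalDegree : ℤ) - 2) * wt Φ z) := by gcongr
          _ ≤ _ := by gcongr
      calc (‖G z‖ ^ 2 * wt Φ z) * wt Φ z ≤ (‖G z‖ ^ 2 * wt Φ z) * ((1 + nm z) * den P Φ z) := by
            gcongr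
        _ ≤ (2 * (‖G z‖ ^ 2 * wt Φ z) + 2 * (nm z ^ 2 * (‖G z‖ ^ 2 * wt Φ z))) *
            den P Φ z := by
          have h5 : 1 + nm z ≤ 2 + 2 * nm z ^ 2 := by nlinarith [sq_nonneg (nm z - 1)]
          have h6 := den_pos P Φ z
          calc _ = ((1 + nm z) * (‖G z‖ ^ 2 * wt Φ z)) * den P Φ z := by ring
            _ ≤ ((2 + 2 * nm z ^ 2) * (‖G z‖ ^ 2 * wt Φ z)) * den P Φ z := by gcongr
            _ = _ := by ring
  obtain ⟨f, hf1, hf2, hf3⟩ := hHIL n (den P Φ)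
    (fun z => MvPolynomial.eval z (star P) * PDm P (wc Φ) z) c C R (den_cont P hΦc)
    (den_pos P Φ) hβc hbd hc (fun f h1 h2 => hcoer f ⟨h1, h2⟩) hinj
    (fun z => G z * wc Φ z) (hGc.mul hwcc) hint
  refine ⟨f, (hEXT n).2.2.2.1 Φ 1 f hS (hGR1 n P Φ W.smooth hS f ⟨hf1, hf2⟩), ?_⟩
  refine K f G ⟨hf1, hf2⟩ (hGr _) fun g hg => ?_
  rw [hf3 g hg.1 hg.2]
  congr 1
  ext z
  ring

end Pool.Agent.Helper25.FN.EX
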