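import Pool.Agent.Helper25.FN.Spec

set_option autoImplicit false

/-! Part FIN: surjectivity of `Φ_P`. -/

namespace Pool.Agent.Helper25.FN.FIN

open MeasureTheory
open scoped ContDiff
open Pool.Agent.Helper25.FB.Inj (Entire IsAF FBorel ExpType InPerp star InPStarExp)
open Pool.Agent.Helper25.FN

theorem eval_star {n : ℕ} (P : Pol n) (a : V n) :
    MvPolynomial.eval a (star P) =
      starRingEnd ℂ (MvPolynomial.eval (fun i => starRingEnd ℂ (a i)) P) := by
  unfold Pool.Agent.Helper25.FB.Inj.star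
  rw [MvPolynomial.eval_map, MvPolynomial.eval_eq', MvPolynomial.eval₂_eq', map_sum]
  refine Finset.sum_congr rfl fun d _ => ?_
  simp [map_mul, map_prod, map_pow]

theorem lead_eq {n : ℕ} (P : Pol n) :
    lead P = star (MvPolynomial.homogeneousComponent P.totalDegree P) := by
  unfold lead Pool.Agent.Helper25.FB.Inj.star
  ext d
  rw [MvPolynomial.coeff_homogeneousComponent, MvPolynomial.coeff_map, MvPolynomial.coeff_map,
    MvPolynomial.coeff_homogeneousComponent]
  split_ifs <;> simp

theorem good {n : ℕ} (P : Pol n) (h : ∀ a : V n, a ≠ 0 →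
      MvPolynomial.eval a (MvPolynomial.homogeneousComponent P.totalDegree P) = 0 →
      ∃ i, MvPolynomial.eval a
        (MvPolynomial.pderiv i (MvPolynomial.homogeneousComponent P.totalDegree P)) ≠ 0) :
    Good P := by
  intro a ha h0
  have ha' : (fun i => starRingEnd ℂ (a i)) ≠ 0 := by
    intro hcon
    apply ha
    ext i
    have := congrFun hcon i
    simpa using this
  unfold pv at h0
  rw [lead_eq, eval_star] at h0
  obtain ⟨i, hi⟩ := h _ ha' ((map_eq_zero _).1 h0)
  refine ⟨i, ?_⟩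
  rw [lead_eq]
  have h1 : MvPolynomial.pderiv i (star (MvPolynomial.homogeneousComponent P.totalDegree P)) =
      star (MvPolynomial.pderiv i (MvPolynomial.homogeneousComponent P.totalDegree P)) := by
    unfold Pool.Agent.Helper25.FB.Inj.star
    exact MvPolynomial.pderiv_map
  rw [h1, eval_star]
  simpa using hi

theorem main (hEX : S_EX) (hFBS : S_FBS) (hEXT : S_EXT) : S_FIN := by
  intro n P hn h G hG
  obtain ⟨x1, x2, x3, -, -⟩ := hEXT n
  rcases Nat.eq_zero_or_pos P.totalDegree with hd | hd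
  · -- constants
    obtain ⟨c, hc⟩ : ∃ c : ℂ, P = MvPolynomial.C c :=
      ⟨_, MvPolynomial.totalDegree_eq_zero_iff_eq_C.1 hd⟩
    have hc0 : c ≠ 0 := by
      rintro rfl
      have hP : P = 0 := by rw [hc, MvPolynomial.C_0]
      obtain ⟨i, hi⟩ := h (fun _ => 1) (by
        intro hcon
        have := congrFun hcon (⟨0, hn⟩ : Fin n)
        simp at this) (by rw [hP]; simp)
      rw [hP] at hi
      simp at hi
    refine ⟨fun _ => 0, ⟨⟨fun _ _ _ _ => by simp, fun _ _ _ => by simp,
      ⟨∅, 0, isCompact_empty, fun f M _ _ _ => by simp⟩⟩, fun _ _ => rfl⟩, ?_⟩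
    refine ⟨_, (x1 G (MvPolynomial.C (-(starRingEnd ℂ c)⁻¹)) hG).1, fun z => ?_⟩
    have h1 : MvPolynomial.eval z (star P) = starRingEnd ℂ c := by
      rw [hc]; simp [Pool.Agent.Helper25.FB.Inj.star]
    have h2 : starRingEnd ℂ c ≠ 0 := by simpa using hc0
    rw [h1, MvPolynomial.eval_C]
    show (0 : ℂ) - G z = _
    field_simp
    ring
  · have hg := good P h
    obtain ⟨Q, hQ, hQ2⟩ := hEX n P hd hg (PD P G) (x1 G P hG).2
    have hPQ := (x1 Q (star P) hQ).1
    have hR : ExpType (fun z => G z - MvPolynomial.eval z (star P) * Q z) := x2 _ _ hG hPQ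
    have hR2 : ∀ z, PD P (fun z => G z - MvPolynomial.eval z (star P) * Q z) z = 0 := by
      intro z
      rw [x3 P G _ hG.1 hPQ.1 z, hQ2 z, sub_self]
    obtain ⟨T, hT, hT2⟩ := hFBS n P _ hR hR2
    refine ⟨T, hT, ?_⟩
    refine ⟨_, (x1 Q (MvPolynomial.C (-1)) hQ).1, fun z => ?_⟩
    show FBorel T z - G z = _
    rw [hT2 z, MvPolynomial.eval_C]
    ring

end Pool.Agent.Helper25.FN.FIN
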