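import Pool.Agent.Helper51.FN.IFTG
import Pool.Agent.Helper67.FN.ROOT
import Pool.Agent.Helper5.FN.WT1
import Pool.Agent.Helper86.FN.WT2
import Pool.Agent.Helper46.FN.WT3
import Pool.Agent.Helper88.FN.SYM1
import Pool.Agent.Helper42.FN.SYM2
import Pool.Agent.Helper82.FN.WD
import Pool.Agent.Helper96.FN.EXPA
import Pool.Agent.Helper59.FN.NPOS
import Pool.Agent.Helper60.FN.JOP
import Pool.Agent.Helper56.FN.GR1
import Pool.Agent.Helper45.FN.GR2
import Pool.Agent.Helper74.FN.GR3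
import Pool.Agent.Helper54.FN.IBP
import Pool.Agent.Helper54.FN.IBPP
import Pool.Agent.Helper73.FN.IBPN
import Pool.Agent.Helper13.FN.SEP
import Pool.Agent.Helper14.FN.DISC
import Pool.Agent.Helper34.FN.GAINfin
import Pool.Agent.Helper76.FN.FRED
import Pool.Agent.Helper1.FN.BERG
import Pool.Agent.Helper8.FN.HIL
import Pool.Agent.Helper46.FN.PTW
import Pool.Agent.Helper59.FN.COER
import Pool.Agent.Helper71.FN.EXT
import Pool.Agent.Helper7.FN.FBS
import Pool.Agent.Helper2.FN.INJ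
import Pool.Agent.Helper25.FN.EX
import Pool.Agent.Helper25.FN.FIN

set_option autoImplicit false

/-!
# MP_6e521b_an: assembly of the parts
-/

namespace Pool.Agent.Helper25.FN

theorem c_WD : S_WD := Pool.Agent.Helper82.FN.WD.main
theorem c_SYM1 : S_SYM1 := Pool.Agent.Helper88.FN.SYM1.main
theorem c_SYM2 : S_SYM2 := Pool.Agent.Helper42.FN.SYM2.main
theorem c_GR1 : S_GR1 := Pool.Agent.Helper56.FN.GR1.main
theorem c_GR2 : S_GR2 := Pool.Agent.Helper45.FN.GR2.main c_WD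
theorem c_GR3 : S_GR3 := Pool.Agent.Helper74.FN.GR3.main
theorem c_IFTG : S_IFTG := Pool.Agent.Helper51.FN.IFTG.main
theorem c_ROOT : S_ROOT := Pool.Agent.Helper67.FN.ROOT.main c_IFTG
theorem c_WT1 : S_WT1 := Pool.Agent.Helper5.FN.WT1.main
theorem c_WT2 : S_WT2 := Pool.Agent.Helper86.FN.WT2.main c_ROOT c_WT1
theorem c_WT3 : S_WT3 := Pool.Agent.Helper46.FN.WT3.main
theorem c_EXPA : S_EXPA := Pool.Agent.Helper96.FN.EXPA.main c_WD c_SYM1
theorem c_NPOS : S_NPOS := Pool.Agent.Helper59.FN.NPOS.main c_WD c_SYM1 c_SYM2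
theorem c_JOP : S_JOP := Pool.Agent.Helper60.FN.JOP.main c_WD
theorem c_IBP : S_IBP := Pool.Agent.Helper54.FN.IBP.main c_WD c_GR2
theorem c_IBPP : S_IBPP := Pool.Agent.Helper54.FN.IBPP.main c_IBP c_SYM1 c_WD c_GR2
theorem c_IBPN : S_IBPN := Pool.Agent.Helper73.FN.IBPN.main c_SYM1 c_WD c_GR2 c_IBP
theorem c_SEP : S_SEP := Pool.Agent.Helper13.FN.SEP.main c_NPOS c_IBPN c_JOP c_GR2 c_SYM2
theorem c_PTW : S_PTW := Pool.Agent.Helper46.FN.PTW.main c_EXPA c_SYM2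
theorem c_DISC : S_DISC := Pool.Agent.Helper14.FN.DISC.main
theorem c_FRED : S_FRED := Pool.Agent.Helper76.FN.FRED.main
theorem c_BERG : S_BERG := Pool.Agent.Helper1.FN.BERG.main
theorem c_HIL : S_HIL := Pool.Agent.Helper8.FN.HIL.main c_FRED c_BERG
theorem c_EXT : S_EXT := Pool.Agent.Helper71.FN.EXT.main c_WD
theorem c_FBS : S_FBS := Pool.Agent.Helper7.FN.FBS.main c_EXT
theorem c_INJ : S_INJ := Pool.Agent.Helper2.FN.INJ.main c_FBS

theorem c_GAIN : S_GAIN := Pool.Agent.Helper34.FN.GAINfin.main c_DISC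
theorem c_COER : S_COER := Pool.Agent.Helper59.FN.COER.main c_PTW c_GAIN c_SYM2
theorem c_EX : S_EX :=
  Pool.Agent.Helper25.FN.EX.main c_WT2 c_WT3 c_SYM1 c_SYM2 c_EXPA c_COER c_HIL c_IBP c_IBPP c_SEP
    c_GR1 c_GR2 c_GR3 c_EXT c_INJ

/-- the surjectivity of `Φ_P` for nonsingular leading forms -/
theorem fin_thm : S_FIN := Pool.Agent.Helper25.FN.FIN.main c_EX c_FBS c_EXT

end Pool.Agent.Helper25.FN
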